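import Pool.Agent.H611C.Scat

/-!
# Partitions by a Bernstein construction
-/

set_option autoImplicit false

open Set Cardinal

namespace H611C

/-- Bernstein sets -/
theorem bern {α I : Type} (X : I → Set α) (κ : Cardinal.{0}) (hI : #I ≤ κ) (hκ : ℵ₀ ≤ κ)
    (hX : ∀ i, κ ≤ #(X i)) : ∃ A : Set α, ∀ i, (∃ a ∈ X i, a ∈ A) ∧ ∃ a ∈ X i, a ∉ A := by
  classical
  have hJ : #(I × Bool) ≤ κ := by
    rw [mk_prod, lift_id, lift_id, mk_bool]
    calc #I * 2 ≤ κ * κ := mul_le_mul' hI ((nat_lt_aleph0 2).le.trans hκ)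
      _ = κ := mul_eq_self hκ
  obtain ⟨r, hr, hord⟩ := ord_eq (I × Bool)
  have hseg : ∀ j : I × Bool, #{j' : I × Bool // r j' j} < κ := by
    intro j
    refine lt_of_lt_of_le ?_ hJ
    have h1 : (Ordinal.typein r j).card = #{j' : I × Bool // r j' j} := rfl
    rw [← h1]
    have h2 : Ordinal.typein r j < Ordinal.type r := Ordinal.typein_lt_type r j
    rw [← hord] at h2
    exact lt_ord.1 h2
  have hstep : ∀ (j : I × Bool) (prev : ∀ j', r j' j → α), ∃ a ∈ X j.1, ∀ j' (h : r j' j),
      a ≠ prev j' h := by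
    intro j prev
    by_contra hcon
    push Not at hcon
    have h1 : X j.1 ⊆ range (fun p : {j' : I × Bool // r j' j} => prev p.1 p.2) := by
      intro a ha
      obtain ⟨j', h, he⟩ := hcon a ha
      exact ⟨⟨j', h⟩, he.symm⟩
    have h2 : #(X j.1) ≤ #{j' : I × Bool // r j' j} := (mk_le_mk_of_subset h1).trans mk_range_le
    exact absurd ((hX j.1).trans h2) (not_le.2 (hseg j))
  choose F hFX hFne using hstep
  have hwf : WellFounded r := hr.wf
  set g : I × Bool → α := hwf.fix (fun j prev => F j prev) with hg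
  have hgeq : ∀ j, g j = F j (fun j' _ => g j') := by
    intro j
    rw [hg, hwf.fix_eq]
  have hgX : ∀ j, g j ∈ X j.1 := by
    intro j; rw [hgeq]; exact hFX _ _
  have hginj : ∀ j j', r j' j → g j ≠ g j' := by
    intro j j' h
    rw [hgeq j]
    exact hFne j _ j' h
  have hinj : ∀ j j', j ≠ j' → g j ≠ g j' := by
    intro j j' hne
    rcases trichotomous_of r j j' with h | h | h
    · exact (hginj j' j h).symm
    · exact absurd h hne
    · exact hginj j j' h
  refine ⟨range (fun i => g (i, true)), fun i => ⟨⟨g (i, true), hgX (i, true), ⟨i, rfl⟩⟩,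
    ⟨g (i, false), hgX (i, false), ?_⟩⟩⟩
  rintro ⟨i', h⟩
  exact hinj (i', true) (i, false) (fun h' => by simpa using congrArg Prod.snd h') h

section

variable {α : Type} [CompleteLinearOrder α]

/-- a partition into two parts without copies, from a set `E` with few maps into the chain which
separates the points of the large set `Γ`, when there are few disjoint intervals -/
theorem partible (E Γ : Set α) (hinf : ℵ₀ ≤ #α) (hE : #(E → α) ≤ #α) (hΓ : #α ≤ #Γ)
    (hsep : ∀ x ∈ Γ, ∀ y ∈ Γ, x < y → ∃ e ∈ E, x < e ∧ e < y)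
    (hcell : ∀ (I : Type) (a b : I → α), (∀ i, a i < b i) →
      (∀ i j, i ≠ j → Disjoint (Ico (a i) (b i)) (Ico (a j) (b j))) → #I < #α) :
    ∃ A : Set α, ¬ Big A ∧ ¬ Big Aᶜ := by
  classical
  let lo : (E → α) → α → α := fun G x => ⨆ e : {e : E // (e : α) < x}, G e.1
  let hi : (E → α) → α → α := fun G x => ⨅ e : {e : E // x < (e : α)}, G e.1
  let X : (E → α) → Set α := fun G => {x | ∃ c ∈ Γ, lo G c = x ∧ hi G c = x}
  obtain ⟨A, hA⟩ := bern (I := {G : E → α // #α ≤ #(X G)}) (fun G => X G.1) #α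
    ((mk_subtype_le _).trans hE) hinf (fun G => G.2)
  have key : ∀ f : α → α, StrictMono f → #α ≤ #(X fun e => f e) ∧
      ∀ x ∈ X (fun e => f e), ∃ c, f c = x := by
    intro f hf
    have hlo : ∀ c, lo (fun e => f e) c ≤ f c := by
      intro c
      exact iSup_le fun e => (hf e.2).le
    have hhi : ∀ c, f c ≤ hi (fun e => f e) c := by
      intro c
      exact le_iInf fun e => (hf e.2).le
    refine ⟨?_, ?_⟩
    · -- the points where the interval is degenerate
      set Γ1 : Set α := {c | c ∈ Γ ∧ lo (fun e => f e) c < hi (fun e => f e) c} with hΓ1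
      set Γ0 : Set α := {c | c ∈ Γ ∧ lo (fun e => f e) c = hi (fun e => f e) c} with hΓ0
      have h1 : #Γ1 < #α := by
        apply hcell Γ1 (fun c => lo (fun e => f e) c) (fun c => hi (fun e => f e) c)
          (fun c => c.2.2)
        have hdis : ∀ c c' : Γ1, (c : α) < c' →
            hi (fun e => f e) (c : α) ≤ lo (fun e => f e) (c' : α) := by
          intro c c' hcc
          obtain ⟨e, he, h1, h2⟩ := hsep c c.2.1 c' c'.2.1 hcc
          calc hi (fun e => f e) (c : α) ≤ f e :=
                iInf_le (fun e : {e : E // (c : α) < (e : α)} => f e.1) ⟨⟨e, he⟩, h1⟩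
            _ ≤ lo (fun e => f e) (c' : α) :=
                le_iSup (fun e : {e : E // (e : α) < (c' : α)} => f e.1) ⟨⟨e, he⟩, h2⟩
        intro c c' hne
        rw [Set.disjoint_left]
        intro t ht ht'
        rcases lt_trichotomy (c : α) c' with h | h | h
        · exact absurd (ht.2.trans_le ((hdis c c' h).trans ht'.1)) (lt_irrefl _)
        · exact hne (Subtype.ext h)
        · exact absurd (ht'.2.trans_le ((hdis c' c h).trans ht.1)) (lt_irrefl _)
      have hun : Γ = Γ0 ∪ Γ1 := by
        ext c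
        constructor
        · intro hc
          rcases ((hlo c).trans (hhi c)).lt_or_eq with h | h
          · exact Or.inr ⟨hc, h⟩
          · exact Or.inl ⟨hc, h⟩
        · rintro (h | h) <;> exact h.1
      have h0 : #α ≤ #Γ0 := by
        by_contra hlt
        rw [not_le] at hlt
        have : #Γ < #α := by
          rw [hun]
          exact lt_of_le_of_lt (mk_union_le _ _) (add_lt_of_lt hinf hlt h1)
        exact absurd hΓ (not_le.2 this)
      refine h0.trans ?_
      refine mk_le_of_injective (f := fun c : Γ0 => (⟨f c, c, c.2.1, ?_, ?_⟩ :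
        X fun e => f e)) ?_
      · exact le_antisymm (hlo c) (by rw [c.2.2]; exact hhi c)
      · exact le_antisymm (by rw [← c.2.2]; exact hlo c) (hhi c)
      · intro c c' h
        have h' : f c = f c' := congrArg Subtype.val h
        exact Subtype.ext (hf.injective h')
    · rintro x ⟨c, _, h1, h2⟩
      exact ⟨c, le_antisymm (h2 ▸ hhi c) (h1 ▸ hlo c)⟩
  refine ⟨A, ?_, ?_⟩
  · rintro ⟨f, hf, hfA⟩
    obtain ⟨h1, h2⟩ := key f hf
    obtain ⟨-, a, ha, haA⟩ := hA (⟨fun e : E => f e, h1⟩ : {G : E → α // #α ≤ #(X G)})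
    obtain ⟨c, hc⟩ := h2 a ha
    exact haA (hc ▸ hfA c)
  · rintro ⟨f, hf, hfA⟩
    obtain ⟨h1, h2⟩ := key f hf
    obtain ⟨⟨a, ha, haA⟩, -⟩ := hA (⟨fun e : E => f e, h1⟩ : {G : E → α // #α ≤ #(X G)})
    obtain ⟨c, hc⟩ := h2 a ha
    exact (hfA c) (hc ▸ haA)

end

end H611C
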