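import Pool.Agent.H611C.Bern

/-!
# Complete chains with countable families of disjoint intervals
-/

set_option autoImplicit false

open Set Cardinal

namespace H611C

section

variable {α : Type} [CompleteLinearOrder α]

/-- elements generated from countable suprema and infima and a binary operation, with codes -/
inductive Dec (c : α → α → α) : (List ℕ → Fin 5) → α → Prop
  | sup (code : List ℕ → Fin 5) (x : ℕ → α) (h0 : code [] = 0)
      (h : ∀ n, Dec c (fun l => code (n :: l)) (x n)) : Dec c code (⨆ n, x n)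
  | inf (code : List ℕ → Fin 5) (x : ℕ → α) (h0 : code [] = 1)
      (h : ∀ n, Dec c (fun l => code (n :: l)) (x n)) : Dec c code (⨅ n, x n)
  | op (code : List ℕ → Fin 5) (x : ℕ → α) (h0 : code [] = 2)
      (h : ∀ n, Dec c (fun l => code (n :: l)) (x n)) : Dec c code (c (x 0) (x 1))
  | bot (code : List ℕ → Fin 5) (h0 : code [] = 3) : Dec c code ⊥
  | top (code : List ℕ → Fin 5) (h0 : code [] = 4) : Dec c code ⊤

theorem Dec.unique {c : α → α → α} {code : List ℕ → Fin 5} {x : α} (hx : Dec c code x) :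
    ∀ y, Dec c code y → x = y := by
  induction hx with
  | sup code x h0 h ih =>
    intro y hy
    cases hy with
    | sup _ x' h0' h' =>
      have : x = x' := funext fun n => ih n _ (h' n)
      rw [this]
    | inf _ x' h0' h' => rw [h0] at h0'; exact absurd h0' (by decide)
    | op _ x' h0' h' => rw [h0] at h0'; exact absurd h0' (by decide)
    | bot _ h0' => rw [h0] at h0'; exact absurd h0' (by decide)
    | top _ h0' => rw [h0] at h0'; exact absurd h0' (by decide)
  | inf code x h0 h ih =>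
    intro y hy
    cases hy with
    | sup _ x' h0' h' => rw [h0] at h0'; exact absurd h0' (by decide)
    | inf _ x' h0' h' =>
      have : x = x' := funext fun n => ih n _ (h' n)
      rw [this]
    | op _ x' h0' h' => rw [h0] at h0'; exact absurd h0' (by decide)
    | bot _ h0' => rw [h0] at h0'; exact absurd h0' (by decide)
    | top _ h0' => rw [h0] at h0'; exact absurd h0' (by decide)
  | op code x h0 h ih =>
    intro y hy
    cases hy with
    | sup _ x' h0' h' => rw [h0] at h0'; exact absurd h0' (by decide)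
    | inf _ x' h0' h' => rw [h0] at h0'; exact absurd h0' (by decide)
    | op _ x' h0' h' =>
      have : x = x' := funext fun n => ih n _ (h' n)
      rw [this]
    | bot _ h0' => rw [h0] at h0'; exact absurd h0' (by decide)
    | top _ h0' => rw [h0] at h0'; exact absurd h0' (by decide)
  | bot code h0 =>
    intro y hy
    cases hy with
    | sup _ x' h0' h' => rw [h0] at h0'; exact absurd h0' (by decide)
    | inf _ x' h0' h' => rw [h0] at h0'; exact absurd h0' (by decide)
    | op _ x' h0' h' => rw [h0] at h0'; exact absurd h0' (by decide)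
    | bot _ h0' => rfl
    | top _ h0' => rw [h0] at h0'; exact absurd h0' (by decide)
  | top code h0 =>
    intro y hy
    cases hy with
    | sup _ x' h0' h' => rw [h0] at h0'; exact absurd h0' (by decide)
    | inf _ x' h0' h' => rw [h0] at h0'; exact absurd h0' (by decide)
    | op _ x' h0' h' => rw [h0] at h0'; exact absurd h0' (by decide)
    | bot _ h0' => rw [h0] at h0'; exact absurd h0' (by decide)
    | top _ h0' => rfl

/-- the generated elements -/
def Gen (c : α → α → α) : Set α := {x | ∃ code, Dec c code x}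

theorem mk_gen_le (c : α → α → α) : #(Gen c) ≤ 𝔠 := by
  have h : ∀ x : Gen c, ∃ code, Dec c code (x : α) := fun x => x.2
  choose code hcode using h
  have hinj : Function.Injective code := by
    intro x y hxy
    apply Subtype.ext
    exact (hcode x).unique _ (hxy ▸ hcode y)
  refine (mk_le_of_injective hinj).trans ?_
  have h1 : #(List ℕ → Fin 5) = (5 : Cardinal) ^ ℵ₀ := by
    rw [← power_def, mk_fin, mk_list_eq_aleph0]; norm_cast
  rw [h1]
  calc (5 : Cardinal) ^ ℵ₀ ≤ ℵ₀ ^ ℵ₀ := power_le_power_right (nat_lt_aleph0 5).le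
    _ = 𝔠 := aleph0_power_aleph0

/-- the code of a node -/
def node (k : Fin 5) (cs : ℕ → List ℕ → Fin 5) : List ℕ → Fin 5
  | [] => k
  | n :: l => cs n l

theorem gen_sup (c : α → α → α) (x : ℕ → α) (h : ∀ n, x n ∈ Gen c) : (⨆ n, x n) ∈ Gen c := by
  choose cs hcs using h
  exact ⟨node 0 cs, Dec.sup _ x rfl hcs⟩

theorem gen_inf (c : α → α → α) (x : ℕ → α) (h : ∀ n, x n ∈ Gen c) : (⨅ n, x n) ∈ Gen c := by
  choose cs hcs using h
  exact ⟨node 1 cs, Dec.inf _ x rfl hcs⟩

theorem gen_op (c : α → α → α) (a b : α) (ha : a ∈ Gen c) (hb : b ∈ Gen c) :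
    c a b ∈ Gen c := by
  have h : ∀ n : ℕ, (fun n : ℕ => if n = 0 then a else b) n ∈ Gen c := by
    intro n
    by_cases hn : n = 0
    · simpa [hn] using ha
    · simpa [hn] using hb
  choose cs hcs using h
  have := Dec.op (c := c) (node 2 cs) (fun n : ℕ => if n = 0 then a else b) rfl hcs
  exact ⟨_, by simpa using this⟩

/-- families of pairwise disjoint nonempty intervals are countable -/
def CCC (α : Type) [CompleteLinearOrder α] : Prop :=
  ∀ (I : Type) (a b : I → α), (∀ i, a i < b i) →
    (∀ i j, i ≠ j → Disjoint (Ico (a i) (b i)) (Ico (a j) (b j))) → Countable I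

/-- a countable set of points of `S` which is cofinal and coinitial, up to extreme points -/
theorem exists_family (hc : CCC α) (S : Set α) : ∃ T : Set α, T ⊆ S ∧ T.Countable ∧
    ∀ s ∈ S, ∀ t ∈ S, s < t → ¬ (∀ u ∈ T, u < s) ∧ ¬ (∀ u ∈ T, t < u) := by
  set F : Set (Set (α × α)) := {J | (∀ p ∈ J, p.1 ∈ S ∧ p.2 ∈ S ∧ p.1 < p.2) ∧
    ∀ p ∈ J, ∀ q ∈ J, p ≠ q → Disjoint (Ico p.1 p.2) (Ico q.1 q.2)} with hF
  obtain ⟨J, -, hJ⟩ := zorn_subset_nonempty F (by
    intro ch hch hchain hne
    refine ⟨⋃₀ ch, ⟨?_, ?_⟩, fun s hs => subset_sUnion_of_mem hs⟩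
    · rintro p ⟨s, hs, hp⟩
      exact (hch hs).1 p hp
    · rintro p ⟨s, hs, hp⟩ q ⟨t, ht, hq⟩ hpq
      rcases hchain.total hs ht with h | h
      · exact (hch ht).2 p (h hp) q hq hpq
      · exact (hch hs).2 p hp q (h hq) hpq) ∅ ⟨by simp, by simp⟩
  have hJF : J ∈ F := hJ.prop
  have hJc : Countable J := by
    apply hc J (fun p => p.1.1) (fun p => p.1.2) (fun p => (hJF.1 p p.2).2.2)
    intro p q hpq
    exact hJF.2 p p.2 q q.2 fun h => hpq (Subtype.ext h)
  refine ⟨Prod.fst '' J ∪ Prod.snd '' J, ?_, ?_, ?_⟩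
  · rintro x (⟨p, hp, rfl⟩ | ⟨p, hp, rfl⟩)
    · exact (hJF.1 p hp).1
    · exact (hJF.1 p hp).2.1
  · exact ((Set.to_countable J).image _).union ((Set.to_countable J).image _)
  · intro s hs t ht hst
    have hins : ∀ (hd : ∀ p ∈ J, Disjoint (Ico s t) (Ico p.1 p.2)), (s, t) ∈ J := by
      intro hd
      apply hJ.le_of_ge (y := insert (s, t) J) _ (subset_insert _ _) (mem_insert _ _)
      refine ⟨?_, ?_⟩
      · rintro p (rfl | hp)
        · exact ⟨hs, ht, hst⟩
        · exact hJF.1 p hp
      · rintro p (rfl | hp) q (rfl | hq) hpq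
        · exact absurd rfl hpq
        · exact hd q hq
        · exact (hd p hp).symm
        · exact hJF.2 p hp q hq hpq
    refine ⟨fun h => ?_, fun h => ?_⟩
    · have hmem : (s, t) ∈ J := by
        apply hins
        intro p hp
        rw [Set.disjoint_left]
        intro u hu hu'
        exact absurd (hu'.2.trans (h _ (Or.inr ⟨p, hp, rfl⟩))) (not_lt.2 hu.1)
      exact absurd (h _ (Or.inl ⟨_, hmem, rfl⟩)) (lt_irrefl _)
    · have hmem : (s, t) ∈ J := by
        apply hins
        intro p hp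
        rw [Set.disjoint_left]
        intro u hu hu'
        exact absurd (hu.2.trans (h _ (Or.inl ⟨p, hp, rfl⟩))) (not_lt.2 hu'.1)
      exact absurd (h _ (Or.inr ⟨_, hmem, rfl⟩)) (lt_irrefl _)

theorem exists_seq (hc : CCC α) (S : Set α) (hS : S.Nonempty) :
    (∃ x : ℕ → α, (∀ n, x n ∈ S) ∧ ⨆ n, x n = sSup S) ∧
    (∃ x : ℕ → α, (∀ n, x n ∈ S) ∧ ⨅ n, x n = sInf S) := by
  obtain ⟨T, hTS, hTc, hT⟩ := exists_family hc S
  obtain ⟨s0, hs0⟩ := hS
  obtain ⟨x, hx⟩ : ∃ x : ℕ → α, range x = insert s0 T :=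
    ((hTc.insert s0).exists_eq_range (insert_nonempty _ _)).imp fun _ h => h.symm
  have hxS : ∀ n, x n ∈ S := by
    intro n
    have : x n ∈ insert s0 T := hx ▸ mem_range_self n
    rcases this with h | h
    · rw [h]; exact hs0
    · exact hTS h
  refine ⟨?_, ?_⟩
  · by_cases hmax : ∃ m ∈ S, ∀ s ∈ S, s ≤ m
    · obtain ⟨m, hm, hms⟩ := hmax
      refine ⟨fun _ => m, fun _ => hm, ?_⟩
      rw [iSup_const]
      exact le_antisymm (le_sSup hm) (sSup_le hms)
    · push Not at hmax
      refine ⟨x, hxS, le_antisymm (iSup_le fun n => le_sSup (hxS n)) (sSup_le fun s hs => ?_)⟩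
      by_contra hlt
      rw [not_le] at hlt
      obtain ⟨t, ht, hst⟩ := hmax s hs
      apply (hT s hs t ht hst).1
      intro u hu
      have : u ∈ range x := hx ▸ mem_insert_of_mem _ hu
      obtain ⟨n, rfl⟩ := this
      exact (le_iSup x n).trans_lt hlt
  · by_cases hmin : ∃ m ∈ S, ∀ s ∈ S, m ≤ s
    · obtain ⟨m, hm, hms⟩ := hmin
      refine ⟨fun _ => m, fun _ => hm, ?_⟩
      rw [iInf_const]
      exact le_antisymm (le_sInf hms) (sInf_le hm)
    · push Not at hmin
      refine ⟨x, hxS, le_antisymm (le_sInf fun s hs => ?_) (le_iInf fun n => sInf_le (hxS n))⟩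
      by_contra hlt
      rw [not_le] at hlt
      obtain ⟨t, ht, hst⟩ := hmin s hs
      apply (hT t ht s hs hst).2
      intro u hu
      have : u ∈ range x := hx ▸ mem_insert_of_mem _ hu
      obtain ⟨n, rfl⟩ := this
      exact hlt.trans_le (iInf_le x n)

/-- complete chains with countable families of disjoint intervals have at most continuum many
points -/
theorem mk_le_continuum (hc : CCC α) : #α ≤ 𝔠 := by
  classical
  set c : α → α → α := fun a b => if h : ∃ x, a < x ∧ x < b then h.choose else a with hcdef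
  have hcs : ∀ a b, (∃ x, a < x ∧ x < b) → a < c a b ∧ c a b < b := by
    intro a b h
    rw [hcdef]
    simp only [dif_pos h]
    exact h.choose_spec
  have hall : ∀ x : α, x ∈ Gen c := by
    intro x
    by_contra hx
    have hbot : (⊥ : α) ∈ Gen c := ⟨fun _ => 3, Dec.bot _ rfl⟩
    have htop : (⊤ : α) ∈ Gen c := ⟨fun _ => 4, Dec.top _ rfl⟩
    have hxb : ⊥ < x := bot_lt_iff_ne_bot.2 fun h => hx (h ▸ hbot)
    have hxt : x < ⊤ := lt_top_iff_ne_top.2 fun h => hx (h ▸ htop)
    obtain ⟨u, hu, hu'⟩ := (exists_seq hc {d | d ∈ Gen c ∧ d < x} ⟨⊥, hbot, hxb⟩).1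
    obtain ⟨v, hv, hv'⟩ := (exists_seq hc {d | d ∈ Gen c ∧ x < d} ⟨⊤, htop, hxt⟩).2
    have ha := gen_sup c u fun n => (hu n).1
    have hb := gen_inf c v fun n => (hv n).1
    set a := ⨆ n, u n with hadef
    set b := ⨅ n, v n with hbdef
    have hax : a < x := lt_of_le_of_ne (iSup_le fun n => (hu n).2.le) fun h => hx (h ▸ ha)
    have hxb' : x < b := lt_of_le_of_ne (le_iInf fun n => (hv n).2.le) fun h => hx (h ▸ hb)
    have hcab := hcs a b ⟨x, hax, hxb'⟩
    have hcg := gen_op c a b ha hb
    rcases lt_trichotomy (c a b) x with h | h | h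
    · have : c a b ≤ a := by
        have h5 : c a b ≤ sSup {d | d ∈ Gen c ∧ d < x} := le_sSup ⟨hcg, h⟩
        rw [← hu'] at h5
        exact h5
      exact absurd hcab.1 (not_lt.2 this)
    · exact hx (h ▸ hcg)
    · have : b ≤ c a b := by
        have h5 : sInf {d | d ∈ Gen c ∧ x < d} ≤ c a b := sInf_le ⟨hcg, h⟩
        rw [← hv'] at h5
        exact h5
      exact absurd hcab.2 (not_lt.2 this)
  have h1 : Gen c = Set.univ := eq_univ_of_forall hall
  calc #α = #(Set.univ : Set α) := mk_univ.symm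
    _ = #(Gen c) := by rw [h1]
    _ ≤ 𝔠 := mk_gen_le c

end

end H611C
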