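import Pool.Agent.H611C.Card
import Mathlib.Analysis.Real.Cardinality

/-!
# The cases
-/

set_option autoImplicit false

open Set Cardinal

namespace H611C

section

variable {α : Type} [CompleteLinearOrder α] [Nontrivial α]

theorem case_rat (h : ∀ e : ℚ → α, ¬ StrictMono e) : ∃ A : Set α, ¬ Big A ∧ ¬ Big Aᶜ := by
  by_contra hcon
  push Not at hcon
  have himp : Impartible α := by
    intro A B hAB
    by_cases hA : Big A
    · exact Or.inl hA
    · refine Or.inr (big_mono ?_ (hcon A hA))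
      intro x hx
      have : x ∈ A ∪ B := hAB ▸ mem_univ x
      exact this.resolve_left hx
  obtain ⟨e, he⟩ := exists_rat himp
  exact h e he

omit [Nontrivial α] in
theorem case_continuum (hcard : #α ≤ 𝔠) (q : ℚ → α) (hq : StrictMono q)
    (hcell : ∀ (I : Type) (a b : I → α), (∀ i, a i < b i) →
      (∀ i j, i ≠ j → Disjoint (Ico (a i) (b i)) (Ico (a j) (b j))) → #I < 𝔠) :
    ∃ A : Set α, ¬ Big A ∧ ¬ Big Aᶜ := by
  let γ : ℝ → α := fun r => ⨆ p : {p : ℚ // (p : ℝ) < r}, q p.1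
  have hlow : ∀ (r : ℝ) (s : ℚ), (s : ℝ) < r → q s ≤ γ r := fun r s h =>
    le_iSup (fun p : {p : ℚ // (p : ℝ) < r} => q p.1) ⟨s, h⟩
  have hup : ∀ (r : ℝ) (s : ℚ), r < s → γ r ≤ q s := fun r s h =>
    iSup_le fun p => (hq (by exact_mod_cast p.2.trans h)).le
  have hsep0 : ∀ r r' : ℝ, r < r' → ∃ s : ℚ, γ r < q s ∧ q s < γ r' := by
    intro r r' h
    obtain ⟨s1, h1, h1'⟩ := exists_rat_btwn h
    obtain ⟨s2, h2, h2'⟩ := exists_rat_btwn h1'
    obtain ⟨s3, h3, h3'⟩ := exists_rat_btwn h2'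
    exact ⟨s2, (hup r s1 h1).trans_lt (hq (by exact_mod_cast h2)),
      (hq (by exact_mod_cast h3)).trans_le (hlow r' s3 h3')⟩
  have hγ : StrictMono γ := by
    intro r r' h
    obtain ⟨s, h1, h2⟩ := hsep0 r r' h
    exact h1.trans h2
  have hΓ : #(range γ) = 𝔠 := by
    rw [mk_range_eq _ hγ.injective, mk_real]
  have hα : #α = 𝔠 := le_antisymm hcard (hΓ ▸ mk_set_le _)
  apply partible (range q) (range γ)
  · rw [hα]; exact aleph0_le_continuum
  · rw [← power_def, hα]
    calc 𝔠 ^ #(range q) ≤ 𝔠 ^ ℵ₀ :=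
          power_le_power_left continuum_ne_zero (mk_range_le.trans (mk_le_aleph0))
      _ = 𝔠 := continuum_power_aleph0
  · rw [hα, hΓ]
  · rintro x ⟨r, rfl⟩ y ⟨r', rfl⟩ hxy
    obtain ⟨s, h1, h2⟩ := hsep0 r r' (hγ.lt_iff_lt.1 hxy)
    exact ⟨q s, ⟨s, rfl⟩, h1, h2⟩
  · rw [hα]; exact hcell

theorem case_density (E : Set α) (hE0 : ∀ x y : α, x < y → ∃ e ∈ E, x ≤ e ∧ e ≤ y)
    (hE : #(E → α) ≤ #α) (q : ℚ → α) (hq : StrictMono q) :
    ∃ A : Set α, ¬ Big A ∧ ¬ Big Aᶜ := by
  have hinf : ℵ₀ ≤ #α := by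
    have : Infinite α := Infinite.of_injective q hq.injective
    exact aleph0_le_mk α
  have hElt : #E < #α := by
    calc #E < 2 ^ #E := cantor _
      _ ≤ #α ^ #E := power_le_power_right ((nat_lt_aleph0 2).le.trans hinf)
      _ ≤ #α := by rw [power_def]; exact hE
  apply partible E Eᶜ hinf hE
  · by_contra hlt
    rw [not_le] at hlt
    have h1 : #α < #α := by
      calc #α = #E + #(Eᶜ : Set α) := (mk_sum_compl E).symm
        _ < #α := add_lt_of_lt hinf hElt hlt
    exact lt_irrefl _ h1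
  · intro x hx y hy hxy
    obtain ⟨e, he, h1, h2⟩ := hE0 x y hxy
    refine ⟨e, he, lt_of_le_of_ne h1 fun h => hx (h ▸ he), lt_of_le_of_ne h2 fun h => hy (h ▸ he)⟩
  · intro I a b hab hdis
    choose e heE he1 he2 using fun i => hE0 (a i) (b i) (hab i)
    classical
    let F : I → E × Bool := fun i => (⟨e i, heE i⟩, decide (e i = b i))
    have hF : Function.Injective F := by
      intro i j hij
      by_contra hne
      have h1 : e i = e j := congrArg (fun p : E × Bool => (p.1 : α)) hij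
      have h2 : (e i = b i) ↔ (e j = b j) := by
        have h3 : decide (e i = b i) = decide (e j = b j) :=
          congrArg (fun p : E × Bool => p.2) hij
        simpa using h3
      have hd := hdis i j hne
      rw [Set.disjoint_left] at hd
      by_cases hb : e i = b i
      · have hb' := h2.1 hb
        have hmem1 : max (a i) (a j) ∈ Ico (a i) (b i) :=
          ⟨le_max_left _ _, max_lt (hab i) (by rw [← hb, h1, hb']; exact hab j)⟩
        have hmem2 : max (a i) (a j) ∈ Ico (a j) (b j) :=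
          ⟨le_max_right _ _, max_lt (by rw [← hb', ← h1, hb]; exact hab i) (hab j)⟩
        exact hd hmem1 hmem2
      · have hb' : ¬ e j = b j := fun h => hb (h2.2 h)
        have hmem1 : e i ∈ Ico (a i) (b i) := ⟨he1 i, lt_of_le_of_ne (he2 i) hb⟩
        have hmem2 : e i ∈ Ico (a j) (b j) := by
          rw [h1]; exact ⟨he1 j, lt_of_le_of_ne (he2 j) hb'⟩
        exact hd hmem1 hmem2
    calc #I ≤ #(E × Bool) := mk_le_of_injective hF
      _ = #E * 2 := by rw [mk_prod, lift_id, lift_id, mk_bool]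
      _ < #α := mul_lt_of_lt hinf hElt ((nat_lt_aleph0 2).trans_le hinf)

/-- the hypothesis of the theorem -/
def Tame (α : Type) [CompleteLinearOrder α] : Prop :=
  IsEmpty (ℚ ↪o α) ∨
  (∀ (I : Type) (a b : I → α), (∀ i, a i < b i) →
    (∀ i j, i ≠ j → Disjoint (Ico (a i) (b i)) (Ico (a j) (b j))) → Countable I) ∨
  (#α ≤ 𝔠 ∧ ∀ (I : Type) (a b : I → α), (∀ i, a i < b i) →
    (∀ i j, i ≠ j → Disjoint (Ico (a i) (b i)) (Ico (a j) (b j))) → #I < 𝔠) ∨
  ∃ E : Set α, (∀ x y : α, x < y → ∃ e ∈ E, x ≤ e ∧ e ≤ y) ∧ #(E → α) ≤ #α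

theorem main_partition (h : Tame α) :
    ∃ A B : Set α, A ∪ B = Set.univ ∧ IsEmpty (α ↪o A) ∧ IsEmpty (α ↪o B) := by
  have key : ∃ A : Set α, ¬ Big A ∧ ¬ Big Aᶜ := by
    by_cases hq : ∃ q : ℚ → α, StrictMono q
    · obtain ⟨q, hq⟩ := hq
      rcases h with h | h | ⟨h1, h2⟩ | ⟨E, h1, h2⟩
      · exact (h.false (OrderEmbedding.ofStrictMono q hq)).elim
      · apply case_continuum (mk_le_continuum h) q hq
        intro I a b hab hd
        have := h I a b hab hd
        exact (mk_le_aleph0).trans_lt aleph0_lt_continuum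
      · exact case_continuum h1 q hq h2
      · exact case_density E h1 h2 q hq
    · push Not at hq
      exact case_rat hq
  obtain ⟨A, h1, h2⟩ := key
  refine ⟨A, Aᶜ, union_compl_self A, ?_, ?_⟩
  · rw [← not_nonempty_iff, ← big_iff]; exact h1
  · rw [← not_nonempty_iff, ← big_iff]; exact h2

end

end H611C
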