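import Mathlib

/-!
# Impartible complete chains contain the rationals
-/

set_option autoImplicit false

open Set

namespace H611C

/-- there is a copy of the chain `α` inside `S` -/
def Big {α : Type} [LinearOrder α] (S : Set α) : Prop :=
  ∃ f : α → α, StrictMono f ∧ ∀ x, f x ∈ S

/-- every partition of `α` into two parts has a part with a copy of `α` -/
def Impartible (α : Type) [LinearOrder α] : Prop :=
  ∀ A B : Set α, A ∪ B = univ → Big A ∨ Big B

theorem big_iff {α : Type} [LinearOrder α] (S : Set α) : Big S ↔ Nonempty (α ↪o S) := by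
  constructor
  · rintro ⟨f, hf, hS⟩
    exact ⟨OrderEmbedding.ofStrictMono (fun x => ⟨f x, hS x⟩) (fun x y h => hf h)⟩
  · rintro ⟨e⟩
    exact ⟨fun x => (e x : α), fun x y h => e.strictMono h, fun x => (e x).2⟩

section

variable {α : Type} [CompleteLinearOrder α] [Nontrivial α]

omit [Nontrivial α] in
theorem big_mono {S T : Set α} (h : S ⊆ T) (hS : Big S) : Big T := by
  obtain ⟨f, hf, hS⟩ := hS
  exact ⟨f, hf, fun x => h (hS x)⟩

omit [Nontrivial α] in
theorem big_union (hα : Impartible α) {S A B : Set α} (h : S ⊆ A ∪ B) (hS : Big S) :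
    Big A ∨ Big B := by
  obtain ⟨f, hf, hfS⟩ := hS
  have hcov : f ⁻¹' A ∪ f ⁻¹' B = univ := by
    rw [eq_univ_iff_forall]
    intro x
    exact h (hfS x)
  rcases hα _ _ hcov with ⟨g, hg, hgA⟩ | ⟨g, hg, hgB⟩
  · exact Or.inl ⟨f ∘ g, hf.comp hg, hgA⟩
  · exact Or.inr ⟨f ∘ g, hf.comp hg, hgB⟩

theorem not_big_single (a : α) : ¬ Big ({a} : Set α) := by
  rintro ⟨f, hf, h⟩
  have h1 : f ⊥ < f ⊤ := hf bot_lt_top
  have h2 : f ⊥ = a := h ⊥
  have h3 : f ⊤ = a := h ⊤
  rw [h2, h3] at h1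
  exact lt_irrefl _ h1

theorem split (hα : Impartible α) {x y : α} (hxy : x < y) (hb : Big (Icc x y)) :
    ∃ m, x < m ∧ m < y ∧ Big (Icc x m) ∧ Big (Icc m y) := by
  set T : Set α := {t | x ≤ t ∧ t ≤ y ∧ ¬ Big (Icc x t)} with hT
  set m : α := sSup T with hm
  have hxT : x ∈ T := by
    refine ⟨le_rfl, hxy.le, ?_⟩
    rw [Icc_self]
    exact not_big_single x
  have hxm : x ≤ m := le_sSup hxT
  have hmy : m ≤ y := sSup_le fun t ht => ht.2.1
  have htop : Big ({⊤}ᶜ : Set α) := by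
    rcases hα {⊤}ᶜ {⊤} (compl_union_self _) with h | h
    · exact h
    · exact absurd h (not_big_single _)
  obtain ⟨g, hg, hgt⟩ := htop
  have hgtop : g ⊤ < ⊤ := lt_top_iff_ne_top.2 (hgt ⊤)
  have hnm : ¬ Big (Icc x m) := by
    rintro ⟨f, hf, hfm⟩
    have h1 : f (g ⊤) < m := lt_of_lt_of_le (hf hgtop) (hfm ⊤).2
    obtain ⟨t, ht, h2⟩ := lt_sSup_iff.1 h1
    apply ht.2.2
    refine ⟨f ∘ g, hf.comp hg, fun z => ⟨(hfm _).1, ?_⟩⟩
    exact le_trans (hf.monotone (hg.monotone le_top)) h2.le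
  have hcov : Icc x y ⊆ Icc x m ∪ Ioc m y := by
    intro t ht
    rcases le_or_gt t m with h | h
    · exact Or.inl ⟨ht.1, h⟩
    · exact Or.inr ⟨h, ht.2⟩
  obtain ⟨k, hk, hky⟩ := (big_union hα hcov hb).resolve_left hnm
  have hkm : m < k ⊥ := (hky ⊥).1
  have hky' : k ⊥ < y := lt_of_lt_of_le (hk bot_lt_top) (hky ⊤).2
  refine ⟨k ⊥, lt_of_le_of_lt hxm hkm, hky', ?_, ?_⟩
  · by_contra hn
    have : k ⊥ ∈ T := ⟨hxm.trans hkm.le, hky'.le, hn⟩
    exact absurd (le_sSup this) (not_le.2 hkm)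
  · exact ⟨k, hk, fun z => ⟨hk.monotone bot_le, (hky z).2⟩⟩

/-- an impartible complete chain with two points contains the rationals -/
theorem exists_rat (hα : Impartible α) : ∃ e : ℚ → α, StrictMono e := by
  set F : Set (Set α) := {M | ⊥ ∈ M ∧ ⊤ ∈ M ∧ ∀ x ∈ M, ∀ y ∈ M, x < y → Big (Icc x y)} with hF
  have h0 : ({⊥, ⊤} : Set α) ∈ F := by
    refine ⟨Or.inl rfl, Or.inr rfl, ?_⟩
    rintro x (rfl | rfl) y (rfl | rfl) h
    · exact absurd h (lt_irrefl _)
    · exact ⟨id, strictMono_id, fun x => ⟨bot_le, le_top⟩⟩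
    · exact absurd h not_top_lt
    · exact absurd h (lt_irrefl _)
  obtain ⟨M, hM⟩ : ∃ M, Maximal (fun M => M ∈ F) M := by
    obtain ⟨M, -, hM⟩ := zorn_subset_nonempty F (by
      intro c hc hch hne
      refine ⟨⋃₀ c, ⟨?_, ?_, ?_⟩, fun s hs => subset_sUnion_of_mem hs⟩
      · obtain ⟨s, hs⟩ := hne
        exact mem_sUnion.2 ⟨s, hs, (hc hs).1⟩
      · obtain ⟨s, hs⟩ := hne
        exact mem_sUnion.2 ⟨s, hs, (hc hs).2.1⟩
      · rintro x ⟨s, hs, hxs⟩ y ⟨t, ht, hyt⟩ hxy
        rcases hch.total hs ht with h | h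
        · exact (hc ht).2.2 x (h hxs) y hyt hxy
        · exact (hc hs).2.2 x hxs y (h hyt) hxy) _ h0
    exact ⟨M, hM⟩
  have hMF : M ∈ F := hM.prop
  have hdense : ∀ x ∈ M, ∀ y ∈ M, x < y → ∃ z ∈ M, x < z ∧ z < y := by
    intro x hx y hy hxy
    by_contra hcon
    push Not at hcon
    obtain ⟨m, hxm, hmy, h1, h2⟩ := split hα hxy (hMF.2.2 x hx y hy hxy)
    have hins : insert m M ∈ F := by
      refine ⟨Or.inr hMF.1, Or.inr hMF.2.1, ?_⟩
      rintro u (rfl | hu) v (rfl | hv) huv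
      · exact absurd huv (lt_irrefl _)
      · have hv' : y ≤ v := hcon v hv (hxm.trans huv)
        exact big_mono (Icc_subset_Icc_right hv') h2
      · have hu' : u ≤ x := by
          by_contra h
          exact absurd (hcon u hu (not_le.1 h)) (not_le.2 (huv.trans hmy))
        exact big_mono (Icc_subset_Icc_left hu') h1
      · exact hMF.2.2 u hu v hv huv
    have hmM : m ∈ M := hM.le_of_ge hins (subset_insert _ _) (mem_insert _ _)
    exact absurd (hcon m hmM hxm) (not_le.2 hmy)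
  have _ : DenselyOrdered M := by
    refine ⟨fun a b hab => ?_⟩
    obtain ⟨z, hz, h1, h2⟩ := hdense a a.2 b b.2 hab
    exact ⟨⟨z, hz⟩, h1, h2⟩
  have _ : Nontrivial M := ⟨⟨⟨⊥, hMF.1⟩, ⟨⊤, hMF.2.1⟩, fun h => bot_ne_top (congrArg Subtype.val h)⟩⟩
  obtain ⟨e⟩ := Order.embedding_from_countable_to_dense ℚ M
  exact ⟨fun q => (e q : α), fun a b h => e.strictMono h⟩

/-- a complete chain does not contain two copies of itself, lexicographically -/
theorem no_double (α : Type) [CompleteLinearOrder α] :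
    ¬ ∃ g : α ×ₗ Bool → α, StrictMono g := by
  rintro ⟨g, hg⟩
  set f : α → Bool → α := fun x b => g (toLex (x, b)) with hf
  have h01 : ∀ x, f x false < f x true := by
    intro x
    apply hg
    rw [Prod.Lex.toLex_lt_toLex]
    exact Or.inr ⟨rfl, Bool.false_lt_true⟩
  have hlt : ∀ x y, x < y → f x true < f y false := by
    intro x y h
    apply hg
    rw [Prod.Lex.toLex_lt_toLex]
    exact Or.inl h
  have hmono : ∀ x y, x < y → f x true < f y true := fun x y h => (hlt x y h).trans (h01 y)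
  set s : α := sInf {x | f x true ≤ x} with hs
  have hs1 : f s true ≤ s := by
    apply le_sInf
    intro x hx
    have hsx : s ≤ x := sInf_le hx
    rcases hsx.lt_or_eq with h | h
    · exact (hmono _ _ h).le.trans hx
    · rw [h]; exact hx
  have h2 : f s false < s := (h01 s).trans_le hs1
  have h3 : f (f s false) true < f s false := hlt _ _ h2
  exact absurd (sInf_le (show f s false ∈ {x | f x true ≤ x} from h3.le)) (not_le.2 h2)

end

end H611C
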